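import Pool.Agent.Helper74_RL.Stmts
import Pool.Agent.Helper5_RF.Diffeo
import Pool.Agent.Helper36_RF.Chr

/-!
# RLB, module DIF
-/

noncomputable section

open scoped ContDiff Topology ENNReal RealInnerProductSpace
set_option maxSynthPendingDepth 3
open Set Metric Filter

namespace Pool.Agent.RLim.H19

open Pool.Agent.RF Pool.Agent.RLim

theorem cont_ric (H : E4 → Bil E4) (U : Set E4) (h : IsMetricOn H U) (V W : E4) :
    ContinuousOn (fun x => ric H x V W) U := by
  have hc : ∀ v w : E4, ContDiffOn ℝ ∞ (fun y => chris H y v w) U := h.contDiffOn_chris'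
  have hd : ∀ u v w : E4, ContinuousOn (fun x => fderiv ℝ (fun y => chris H y v w) x u) U := by
    intro u v w
    have h1 : ContinuousOn (fderiv ℝ (fun y => chris H y v w)) U :=
      (hc v w).continuousOn_fderiv_of_isOpen h.isOpen (by simp)
    exact h1.clm_apply continuousOn_const
  have hcc : ∀ u v w : E4, ContinuousOn (fun x => chris H x u (chris H x v w)) U := by
    intro u v w
    have h1 := h.contDiffOn_chris.continuousOn
    exact h1.comp (s := U) (f := fun x : E4 => (x, u, chris H x v w))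
      (continuousOn_id.prodMk (continuousOn_const.prodMk (hc v w).continuousOn))
      (fun x hx => ⟨hx, trivial⟩)
  have hr : ∀ u : E4, ContinuousOn (fun x => riem H x u V W) U := by
    intro u
    exact (((hd u V W).sub (hd V u W)).add (hcc u V W)).sub (hcc V u W)
  unfold ric
  refine continuousOn_finsetSum _ fun i _ => ?_
  have h1 : Continuous (fun v : E4 => v i) := (EuclideanSpace.proj i : E4 →L[ℝ] ℝ).continuous
  exact h1.comp_continuousOn (hr (eb i))

theorem dens (F F' : E4 → ℝ) (U : Set E4) (hU : IsOpen U) (hF : ContinuousOn F U)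
    (hF' : ContinuousOn F' U) (h : ∀ q ∈ U, (q 0 ≠ 0 ∨ q 1 ≠ 0) → F q ≤ F' q) (q : E4)
    (hq : q ∈ U) : F q ≤ F' q := by
  by_cases h0 : q 0 ≠ 0 ∨ q 1 ≠ 0
  · exact h q hq h0
  · push Not at h0
    set c : ℝ → E4 := fun t => q + t • eb (0 : Fin 4) with hc
    have hcc : Continuous c := by fun_prop
    have hc0 : c 0 = q := by simp [hc]
    have ht : Tendsto c (𝓝[≠] (0 : ℝ)) (𝓝 q) := by
      have h1 := hcc.tendsto 0
      rw [hc0] at h1
      exact h1.mono_left nhdsWithin_le_nhds
    have hFt : Tendsto (fun t => F (c t)) (𝓝[≠] (0 : ℝ)) (𝓝 (F q)) :=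
      ((hF q hq).continuousAt (hU.mem_nhds hq)).tendsto.comp ht
    have hFt' : Tendsto (fun t => F' (c t)) (𝓝[≠] (0 : ℝ)) (𝓝 (F' q)) :=
      ((hF' q hq).continuousAt (hU.mem_nhds hq)).tendsto.comp ht
    refine le_of_tendsto_of_tendsto hFt hFt' ?_
    filter_upwards [ht (hU.mem_nhds hq), self_mem_nhdsWithin] with t ht1 ht2
    refine h _ ht1 (Or.inl ?_)
    have h1 : (c t) 0 = t := by
      simp [hc, h0.1, eb]
    rw [h1]
    exact ht2

/-- module DIF -/
theorem dif : DifStmt := by
  refine ⟨?_, ?_, ?_⟩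
  · intro H f U U' hH hU hf hm hinv
    have h1 := H5.diffeo chrStatement (H5.nat chrStatement) (Fin 4) (Fin 4) H f U U' hH hU hf hm
      hinv
    exact ⟨h1.1, h1.2.2⟩
  · intro H U h V W
    exact cont_ric H U h V W
  · intro F F' U hU hF hF' h q hq
    exact dens F F' U hU hF hF' h q hq

end Pool.Agent.RLim.H19
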